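import Pool.Agent.W769.SR.Stm

set_option autoImplicit false

namespace Pool.Agent.W131.SR.Cara

open Metric Set Filter Topology Real Pool.Agent.W769.SR

/-- disc automorphisms -/
noncomputable def mob (a w : ℂ) : ℂ := (w + a) / (1 + (starRingEnd ℂ) a * w)

lemma den_ne {a w : ℂ} (ha : ‖a‖ < 1) (hw : ‖w‖ < 1) : 1 + (starRingEnd ℂ) a * w ≠ 0 := by
  intro h
  have h1 : (starRingEnd ℂ) a * w = -1 := by linear_combination h
  have h2 := congrArg norm h1
  rw [norm_mul, RCLike.norm_conj, norm_neg, norm_one] at h2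
  have := norm_nonneg a
  have := norm_nonneg w
  nlinarith

lemma mob_ident (a w : ℂ) : Complex.normSq (1 + (starRingEnd ℂ) a * w) - Complex.normSq (w + a)
    = (1 - Complex.normSq a) * (1 - Complex.normSq w) := by
  simp only [Complex.normSq_apply, Complex.add_re, Complex.add_im, Complex.mul_re, Complex.mul_im,
    Complex.conj_re, Complex.conj_im, Complex.one_re, Complex.one_im]
  ring

lemma mob_lt {a w : ℂ} (ha : ‖a‖ < 1) (hw : ‖w‖ < 1) : ‖mob a w‖ < 1 := by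
  unfold mob
  rw [norm_div, div_lt_one (norm_pos_iff.2 (den_ne ha hw))]
  have h := mob_ident a w
  rw [Complex.normSq_eq_norm_sq, Complex.normSq_eq_norm_sq, Complex.normSq_eq_norm_sq,
    Complex.normSq_eq_norm_sq] at h
  have h1 : 0 < (1 - ‖a‖ ^ 2) * (1 - ‖w‖ ^ 2) := by
    apply mul_pos <;> nlinarith [norm_nonneg a, norm_nonneg w]
  have h2 : ‖w + a‖ ^ 2 < ‖1 + (starRingEnd ℂ) a * w‖ ^ 2 := by linarith
  exact lt_of_pow_lt_pow_left₀ 2 (norm_nonneg _) h2

lemma mob_hasDerivAt {a w : ℂ} (ha : ‖a‖ < 1) (hw : ‖w‖ < 1) :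
    HasDerivAt (mob a) ((1 - ((‖a‖ ^ 2 : ℝ) : ℂ)) / (1 + (starRingEnd ℂ) a * w) ^ 2) w := by
  unfold mob
  have h1 : HasDerivAt (fun w : ℂ => w + a) 1 w := (hasDerivAt_id w).add_const a
  have h2 : HasDerivAt (fun w : ℂ => 1 + (starRingEnd ℂ) a * w) ((starRingEnd ℂ) a) w := by
    have := ((hasDerivAt_id w).const_mul ((starRingEnd ℂ) a)).const_add (1 : ℂ)
    simpa using this
  have h3 : HasDerivAt (fun w : ℂ => (w + a) / (1 + (starRingEnd ℂ) a * w)) _ w :=
    h1.div h2 (den_ne ha hw)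
  refine h3.congr_deriv ?_
  congr 1
  have : ((‖a‖ ^ 2 : ℝ) : ℂ) = (starRingEnd ℂ) a * a := by
    rw [← Complex.normSq_eq_norm_sq, Complex.normSq_eq_conj_mul_self]
  rw [this]
  ring

/-- the Schwarz-Pick inequality for the derivative -/
theorem pick {ψ : ℂ → ℂ} (hd : DifferentiableOn ℂ ψ (ball 0 1))
    (hm : MapsTo ψ (ball 0 1) (ball 0 1)) {z : ℂ} (hz : ‖z‖ < 1) :
    ‖deriv ψ z‖ * (1 - ‖z‖ ^ 2) ≤ 1 - ‖ψ z‖ ^ 2 := by
  have hψz : ‖ψ z‖ < 1 := by simpa using hm (by simpa using hz : z ∈ ball (0 : ℂ) 1)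
  have hψz' : ‖-ψ z‖ < 1 := by rwa [norm_neg]
  have h0 : ‖(0 : ℂ)‖ < 1 := by simp
  set F : ℂ → ℂ := fun w => mob (-ψ z) (ψ (mob z w)) with hF
  have hmem : ∀ w ∈ ball (0 : ℂ) 1, ‖ψ (mob z w)‖ < 1 := by
    intro w hw
    have : mob z w ∈ ball (0 : ℂ) 1 := by
      simpa using mob_lt hz (by simpa using hw)
    simpa using hm this
  have hFd : DifferentiableOn ℂ F (ball 0 1) := by
    intro w hw
    have hw' : ‖w‖ < 1 := by simpa using hw
    have h1 := (mob_hasDerivAt hz hw').differentiableAt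
    have h2 : DifferentiableAt ℂ ψ (mob z w) :=
      (hd _ (by simpa using mob_lt hz hw')).differentiableAt
        (isOpen_ball.mem_nhds (by simpa using mob_lt hz hw'))
    have h3 := (mob_hasDerivAt hψz' (hmem w hw)).differentiableAt
    have h12 : DifferentiableAt ℂ (fun w => ψ (mob z w)) w := h2.comp w h1
    exact (DifferentiableAt.comp (g := mob (-ψ z)) (f := fun w => ψ (mob z w)) w h3
      h12).differentiableWithinAt
  have hmz0 : mob z 0 = z := by unfold mob; simp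
  have hF0 : F 0 = 0 := by
    simp only [hF, hmz0]
    unfold mob
    simp
  have hFm : MapsTo F (ball 0 1) (closedBall (F 0) 1) := by
    intro w hw
    rw [hF0]
    have := mob_lt hψz' (hmem w hw)
    simpa using this.le
  have hle := Complex.norm_deriv_le_one_of_mapsTo_ball hFd hFm one_pos
  have hder : HasDerivAt F ((1 - ((‖-ψ z‖ ^ 2 : ℝ) : ℂ)) /
      (1 + (starRingEnd ℂ) (-ψ z) * ψ z) ^ 2 * (deriv ψ z *
        ((1 - ((‖z‖ ^ 2 : ℝ) : ℂ)) / (1 + (starRingEnd ℂ) z * 0) ^ 2))) 0 := by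
    have h1 := mob_hasDerivAt hz h0
    have h2 : HasDerivAt ψ (deriv ψ z) (mob z 0) := by
      rw [hmz0]
      exact ((hd z (by simpa using hz)).differentiableAt
        (isOpen_ball.mem_nhds (by simpa using hz))).hasDerivAt
    have h12 := h2.comp (0 : ℂ) h1
    have h3 : HasDerivAt (mob (-ψ z)) ((1 - ((‖-ψ z‖ ^ 2 : ℝ) : ℂ)) /
      (1 + (starRingEnd ℂ) (-ψ z) * ψ z) ^ 2) ((ψ ∘ mob z) 0) := by
      rw [Function.comp_apply, hmz0]
      exact mob_hasDerivAt hψz' hψz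
    exact h3.comp (0 : ℂ) h12
  rw [hder.deriv] at hle
  have hp : 0 < 1 - ‖ψ z‖ ^ 2 := by nlinarith [norm_nonneg (ψ z)]
  have hq : 0 < 1 - ‖z‖ ^ 2 := by nlinarith [norm_nonneg z]
  have e1 : (1 + (starRingEnd ℂ) (-ψ z) * ψ z) = ((1 - ‖ψ z‖ ^ 2 : ℝ) : ℂ) := by
    have : ((‖ψ z‖ ^ 2 : ℝ) : ℂ) = (starRingEnd ℂ) (ψ z) * ψ z := by
      rw [← Complex.normSq_eq_norm_sq, Complex.normSq_eq_conj_mul_self]
    rw [map_neg, Complex.ofReal_sub, this]
    push_cast
    ring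
  have e2 : (1 - ((‖-ψ z‖ ^ 2 : ℝ) : ℂ)) = ((1 - ‖ψ z‖ ^ 2 : ℝ) : ℂ) := by
    rw [norm_neg]; push_cast; ring
  have e3 : (1 - ((‖z‖ ^ 2 : ℝ) : ℂ)) = ((1 - ‖z‖ ^ 2 : ℝ) : ℂ) := by push_cast; ring
  rw [e1, e2, e3, mul_zero, add_zero, one_pow, div_one, norm_mul, norm_mul, norm_div, norm_pow,
    Complex.norm_real, Complex.norm_real, Real.norm_of_nonneg hp.le,
    Real.norm_of_nonneg hq.le] at hle
  have h4 : (1 - ‖ψ z‖ ^ 2) / (1 - ‖ψ z‖ ^ 2) ^ 2 * (‖deriv ψ z‖ * (1 - ‖z‖ ^ 2))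
      = (‖deriv ψ z‖ * (1 - ‖z‖ ^ 2)) / (1 - ‖ψ z‖ ^ 2) := by
    field_simp
  rw [h4, div_le_one hp] at hle
  exact hle

theorem main : S_CARA := by
  intro φ hφ z hz
  have h2 : √2 ^ 2 = 2 := Real.sq_sqrt (by norm_num)
  have h2' : 1 < √2 := by
    rw [Real.lt_sqrt (by norm_num)]; norm_num
  have h2'' : √2 < 2 := by
    rw [Real.sqrt_lt' (by norm_num)]; norm_num
  have hz1 : ‖z‖ < 1 := by linarith
  have hmaps : MapsTo φ (ball 0 1) (closedBall (φ 0) 1) := by
    intro w hw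
    rw [hφ.zero]
    exact ball_subset_closedBall (hφ.maps hw)
  have hψle : ∀ w ∈ ball (0 : ℂ) 1, ‖dslope φ 0 w‖ ≤ 1 := by
    intro w hw
    have := Complex.norm_dslope_le_div_of_mapsTo_ball hφ.diff hmaps hw
    simpa using this
  have hnhds : ball (0 : ℂ) 1 ∈ 𝓝 (0 : ℂ) := ball_mem_nhds _ one_pos
  have hψd : DifferentiableOn ℂ (dslope φ 0) (ball 0 1) :=
    (Complex.differentiableOn_dslope hnhds).2 hφ.diff
  have hfac : ∀ w, φ w = w * dslope φ 0 w := by
    intro w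
    have := sub_smul_dslope φ 0 w
    rw [hφ.zero, sub_zero, sub_zero, smul_eq_mul] at this
    exact this.symm
  by_cases hex : ∃ w ∈ ball (0 : ℂ) 1, ‖dslope φ 0 w‖ = 1
  · obtain ⟨w, hw, hw1⟩ := hex
    have haff := Complex.affine_of_mapsTo_ball_of_norm_dslope_eq_div hφ.diff hmaps hw
      (by rw [hw1]; norm_num)
    have hev : φ =ᶠ[𝓝 z] fun x => x * dslope φ 0 w := by
      filter_upwards [isOpen_ball.mem_nhds (by simpa using hz1 : z ∈ ball (0 : ℂ) 1)] with x hx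
      have := haff hx
      simpa [hφ.zero] using this
    rw [hev.deriv_eq]
    have : HasDerivAt (fun x : ℂ => x * dslope φ 0 w) (dslope φ 0 w) z := by
      have := (hasDerivAt_id z).mul_const (dslope φ 0 w)
      simpa using this
    rw [this.deriv, hw1]
  · push Not at hex
    have hψm : MapsTo (dslope φ 0) (ball 0 1) (ball 0 1) := by
      intro w hw
      have := lt_of_le_of_ne (hψle w hw) (hex w hw)
      simpa using this
    have hp := pick hψd hψm hz1
    have hder : HasDerivAt φ (1 * dslope φ 0 z + z * deriv (dslope φ 0) z) z := by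
      have h1 : HasDerivAt (dslope φ 0) (deriv (dslope φ 0) z) z :=
        ((hψd z (by simpa using hz1)).differentiableAt
          (isOpen_ball.mem_nhds (by simpa using hz1))).hasDerivAt
      have h3 : (fun w => w * dslope φ 0 w) = φ := (funext hfac).symm
      have h4 : HasDerivAt (fun w => w * dslope φ 0 w)
          (1 * dslope φ 0 z + z * deriv (dslope φ 0) z) z := (hasDerivAt_id z).mul h1
      rw [h3] at h4
      exact h4
    rw [hder.deriv, one_mul]
    have hx0 := norm_nonneg (dslope φ 0 z)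
    have hx1 := hψle z (by simpa using hz1)
    have hd0 := norm_nonneg (deriv (dslope φ 0) z)
    have hr0 := norm_nonneg z
    calc ‖dslope φ 0 z + z * deriv (dslope φ 0) z‖
        ≤ ‖dslope φ 0 z‖ + ‖z‖ * ‖deriv (dslope φ 0) z‖ := by
          refine (norm_add_le _ _).trans ?_
          rw [norm_mul]
      _ ≤ 1 := by
          have h5 : 2 * ‖z‖ ≤ 1 - ‖z‖ ^ 2 := by nlinarith
          have h6 : 2 * ‖z‖ * ‖deriv (dslope φ 0) z‖ ≤ 1 - ‖dslope φ 0 z‖ ^ 2 := by
            have := mul_le_mul_of_nonneg_left h5 hd0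
            nlinarith
          nlinarith

end Pool.Agent.W131.SR.Cara
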