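import Pool.Agent.W131.SR.Cara

set_option autoImplicit false

namespace Pool.Agent.W131.SR.Upper

open Metric Set Filter Topology Real Pool.Agent.W769.SR Pool.Agent.W131.SR.Cara

lemma Mp_const {p r c : ℝ} (hp : 0 < p) (hc : 0 ≤ c) (h : ℂ → ℂ)
    (hh : ∀ t : ℝ, ‖h (r * Complex.exp (t * Complex.I))‖ = c) : Mp p r h = c := by
  unfold Mp
  simp_rw [hh]
  rw [intervalIntegral.integral_const]
  have h1 : (2 * π - 0) • c ^ p / (2 * π) = c ^ p := by
    rw [smul_eq_mul]
    have := Real.pi_pos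
    field_simp
    ring
  rw [h1, one_div, Real.rpow_rpow_inv hc hp.ne']

lemma Mp_id {p r : ℝ} (hp : 0 < p) : Mp p r (deriv fun z : ℂ => z) = 1 := by
  apply Mp_const hp zero_le_one
  intro t
  simp

theorem half : S_HALF := by
  intro p ρ hp hρ hG
  by_contra hcon
  push Not at hcon
  set r : ℝ := (1 / 2 + ρ) / 2 with hr
  have hr0 : 0 < r := by rw [hr]; linarith
  have hrρ : r < ρ := by rw [hr]; linarith
  have hr1 : 1 / 2 < r := by rw [hr]; linarith
  have hS : SelfMap (fun z : ℂ => z ^ 2) := by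
    refine ⟨by fun_prop, ?_, by simp⟩
    intro z hz
    have hz' : ‖z‖ < 1 := by simpa using hz
    have : ‖z ^ 2‖ < 1 := by
      rw [norm_pow]
      nlinarith [norm_nonneg z]
    simpa using this
  have h := hG (fun z => z) (fun z => z ^ 2) differentiableOn_id (by fun_prop)
    ⟨fun z => z ^ 2, hS, fun z _ => rfl⟩ r hr0 hrρ
  rw [Mp_id hp] at h
  have h2 : Mp p r (deriv fun z : ℂ => z ^ 2) = 2 * r := by
    apply Mp_const hp (by linarith)
    intro t
    have : deriv (fun z : ℂ => z ^ 2) (r * Complex.exp (t * Complex.I))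
        = 2 * (r * Complex.exp (t * Complex.I)) := by
      simp
    rw [this, norm_mul, norm_mul, Complex.norm_exp_ofReal_mul_I, Complex.norm_real,
      Real.norm_of_nonneg hr0.le]
    simp
  rw [h2] at h
  linarith

theorem large : S_LARGE := by
  intro ρ hρ hρ1
  have hs2 : √2 ^ 2 = 2 := Real.sq_sqrt (by norm_num)
  have hs1 : 1 < √2 := by
    rw [Real.lt_sqrt (by norm_num)]; norm_num
  set r : ℝ := (√2 - 1 + ρ) / 2 with hr
  have hr0 : 0 < r := by rw [hr]; linarith
  have hrρ : r < ρ := by rw [hr]; linarith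
  have hr1 : r < 1 := by linarith
  have hr2 : √2 - 1 < r := by rw [hr]; linarith
  have hpos : 0 < r ^ 2 + 2 * r - 1 := by nlinarith
  set a : ℝ := 1 - (r ^ 2 + 2 * r - 1) / 2 with ha
  have ha1 : a < 1 := by rw [ha]; linarith
  have ha0 : 0 < a := by rw [ha]; nlinarith
  have hkey : 0 < 2 * r - 1 + a * r ^ 2 := by
    have : 2 * r - 1 + a * r ^ 2 = (r ^ 2 + 2 * r - 1) * (1 - r ^ 2 / 2) := by rw [ha]; ring
    rw [this]
    apply mul_pos hpos
    nlinarith
  have hna : ‖(a : ℂ)‖ < 1 := by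
    rw [Complex.norm_real, Real.norm_of_nonneg ha0.le]; exact ha1
  set φ : ℂ → ℂ := fun z => z * mob a z with hφ
  have hφd : ∀ z : ℂ, ‖z‖ < 1 → HasDerivAt φ (1 * mob a z +
      z * ((1 - ((‖(a : ℂ)‖ ^ 2 : ℝ) : ℂ)) / (1 + (starRingEnd ℂ) (a : ℂ) * z) ^ 2)) z := by
    intro z hz
    exact (hasDerivAt_id z).mul (mob_hasDerivAt hna hz)
  have hφD : DifferentiableOn ℂ φ (ball 0 1) := by
    intro z hz
    exact (hφd z (by simpa using hz)).differentiableAt.differentiableWithinAt
  have hS : SelfMap φ := by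
    refine ⟨hφD, ?_, by simp [hφ]⟩
    intro z hz
    have hz' : ‖z‖ < 1 := by simpa using hz
    have h1 := mob_lt hna hz'
    have : ‖φ z‖ < 1 := by
      simp only [hφ]
      rw [norm_mul]
      nlinarith [norm_nonneg z, norm_nonneg (mob (a : ℂ) z)]
    simpa using this
  -- the norm of the derivative along the circle
  set H : ℝ → ℝ := fun t => ‖deriv φ (r * Complex.exp (t * Complex.I))‖ with hH
  have hHc : Continuous H := by
    have h1 : ContinuousOn (deriv φ) (ball 0 1) := (hφD.deriv isOpen_ball).continuousOn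
    have h2 : Continuous (fun t : ℝ => (r : ℂ) * Complex.exp (t * Complex.I)) := by fun_prop
    have h3 : ∀ t : ℝ, (r : ℂ) * Complex.exp (t * Complex.I) ∈ ball (0 : ℂ) 1 := by
      intro t
      rw [mem_ball_zero_iff, norm_mul, Complex.norm_exp_ofReal_mul_I, Complex.norm_real,
        Real.norm_of_nonneg hr0.le]
      linarith
    exact (h1.comp_continuous h2 h3).norm
  have hden : 0 < 1 + a * r := by positivity
  have hH0 : 1 < H 0 := by
    have h1 : (r : ℂ) * Complex.exp ((0 : ℝ) * Complex.I) = (r : ℂ) := by simp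
    have hrn : ‖(r : ℂ)‖ < 1 := by
      rw [Complex.norm_real, Real.norm_of_nonneg hr0.le]; exact hr1
    have h2 : H 0 = ‖(((r + a) / (1 + a * r) + r * ((1 - a ^ 2) / (1 + a * r) ^ 2) : ℝ) : ℂ)‖ := by
      simp only [hH]
      rw [h1, (hφd _ hrn).deriv]
      congr 1
      unfold mob
      rw [Complex.conj_ofReal, Complex.norm_real, Real.norm_of_nonneg ha0.le]
      push_cast
      ring
    rw [h2, Complex.norm_real, Real.norm_eq_abs]
    refine lt_of_lt_of_le ?_ (le_abs_self _)
    have h3 : (r + a) / (1 + a * r) + r * ((1 - a ^ 2) / (1 + a * r) ^ 2) - 1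
        = ((1 - a) * (2 * r - 1 + a * r ^ 2)) / (1 + a * r) ^ 2 := by
      field_simp
      ring
    have h4 : 0 < ((1 - a) * (2 * r - 1 + a * r ^ 2)) / (1 + a * r) ^ 2 := by
      apply div_pos (mul_pos (by linarith) hkey) (by positivity)
    linarith
  set η : ℝ := (H 0 - 1) / 2 with hη
  have hη0 : 0 < η := by rw [hη]; linarith
  obtain ⟨e, he0, hee⟩ := Metric.continuousAt_iff.1 (hHc.continuousAt (x := 0)) η hη0
  set δ : ℝ := min (e / 2) 1 with hδ
  have hδ0 : 0 < δ := by rw [hδ]; positivity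
  have hδ1 : δ ≤ 1 := min_le_right _ _
  have hδe : δ < e := lt_of_le_of_lt (min_le_left _ _) (by linarith)
  have hHδ : ∀ t ∈ Icc (0 : ℝ) δ, 1 + η ≤ H t := by
    intro t ht
    have h1 : dist t 0 < e := by
      rw [Real.dist_eq, sub_zero, abs_of_nonneg ht.1]
      linarith [ht.2]
    have h2 := hee h1
    rw [Real.dist_eq, abs_lt] at h2
    have : H 0 = 1 + 2 * η := by rw [hη]; ring
    linarith [h2.1]
  have hpi := Real.pi_gt_three
  refine ⟨max 1 (2 * π / (δ * η)), ?_⟩
  intro p hp hG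
  have hp1 : 1 ≤ p := le_trans (le_max_left _ _) hp
  have hp0 : 0 < p := by linarith
  have hp2 : 2 * π / (δ * η) ≤ p := le_trans (le_max_right _ _) hp
  have h := hG (fun z => z) φ differentiableOn_id hφD ⟨φ, hS, fun z _ => rfl⟩ r hr0 hrρ
  rw [Mp_id hp0] at h
  unfold Mp at h
  have hHpc : Continuous (fun t => H t ^ p) :=
    hHc.rpow_const (fun t => Or.inr hp0.le)
  have hI : ∀ a b : ℝ, IntervalIntegrable (fun t => H t ^ p) MeasureTheory.volume a b :=
    fun a b => hHpc.intervalIntegrable a b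
  have hlow : 2 * π < ∫ t in (0 : ℝ)..(2 * π), H t ^ p := by
    have h1 : ∫ t in (0 : ℝ)..δ, H t ^ p ≤ ∫ t in (0 : ℝ)..(2 * π), H t ^ p := by
      rw [← intervalIntegral.integral_add_adjacent_intervals (hI 0 δ) (hI δ (2 * π))]
      have : 0 ≤ ∫ t in δ..(2 * π), H t ^ p := by
        apply intervalIntegral.integral_nonneg (by linarith)
        intro t _
        exact Real.rpow_nonneg (norm_nonneg _) _
      linarith
    have h2 : ∫ _t in (0 : ℝ)..δ, (1 + η) ^ p ≤ ∫ t in (0 : ℝ)..δ, H t ^ p := by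
      apply intervalIntegral.integral_mono_on hδ0.le (by simp) (hI 0 δ)
      intro t ht
      exact Real.rpow_le_rpow (by linarith) (hHδ t ht) hp0.le
    rw [intervalIntegral.integral_const, sub_zero, smul_eq_mul] at h2
    have h3 : 1 + p * η ≤ (1 + η) ^ p :=
      one_add_mul_self_le_rpow_one_add (by linarith) hp1
    have h4 : 2 * π ≤ δ * (p * η) := by
      rw [div_le_iff₀ (by positivity)] at hp2
      linarith
    have h5 : δ * (1 + p * η) ≤ δ * (1 + η) ^ p := mul_le_mul_of_nonneg_left h3 hδ0.le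
    nlinarith
  have h6 : 1 < (∫ t in (0 : ℝ)..(2 * π), H t ^ p) / (2 * π) := by
    rw [lt_div_iff₀ (by positivity), one_mul]
    exact hlow
  have h7 : 1 < ((∫ t in (0 : ℝ)..(2 * π), H t ^ p) / (2 * π)) ^ (1 / p) :=
    Real.one_lt_rpow h6 (by positivity)
  linarith

theorem main : S_HALF ∧ S_LARGE := ⟨half, large⟩

end Pool.Agent.W131.SR.Upper
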